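import Pool.Agent.V11118.PythMul.Group

set_option autoImplicit false

/-!
# MP_0f91f8_co: three-colourings which are stable under dilations

Let `c` be a colouring of the positive integers for which the colour of a product is determined by
the colours of the factors; equivalently `c m = c n` implies `c (k m) = c (k n)`.  If `c` has at most
three colours, there is a monochromatic Pythagorean triple.  It suffices that this holds at one
place: on the multiples `T n` of one integer `T`, where `n` runs through the integers all of whose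
prime factors are at most 283.

In particular every completely multiplicative function with values in a group of order at most
three is constant on a Pythagorean triple.  The cubic character modulo the prime 277 takes three
equal values on no Pythagorean triple of integers prime to 277, so that triples with members
divisible by 277 cannot be avoided.
-/

namespace Pool.Agent.Results.MP_0f91f8_co.DilationStableThreeColours

/-- `n` is a positive integer all of whose prime factors are at most `283`. -/
def Smooth (n : ℕ) : Prop := 0 < n ∧ ∀ p : ℕ, p.Prime → p ∣ n → p ≤ 283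

theorem smooth_iff (n : ℕ) : Smooth n ↔ n ∈ Pool.Agent.V11118.PythMul.Sm := by
  unfold Smooth Pool.Agent.V11118.PythMul.Sm
  rw [Nat.mem_smoothNumbers']
  constructor
  · intro h p hp hd
    have := h.2 p hp hd
    omega
  · intro h
    refine ⟨?_, fun p hp hd => by have := h p hp hd; omega⟩
    rcases Nat.eq_zero_or_pos n with h0 | h0
    · subst h0
      have := h 293 (by norm_num) (by norm_num)
      omega
    · exact h0

/-- Let `c` be a colouring (with any number of colours) and `T ≥ 1`.  Suppose that the numbers
`T n`, `n` smooth, have at most three colours, and that for smooth `k, m, n` the equality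
`c (T m) = c (T n)` implies `c (T (k m)) = c (T (k n))`.  Then there are arbitrarily large
monochromatic Pythagorean triples. -/
theorem result {κ : Type*} (c : ℕ → κ) (T : ℕ) (hT : 0 < T)
    (h3 : (c '' {N : ℕ | ∃ n : ℕ, Smooth n ∧ N = T * n}).encard ≤ 3)
    (hc : ∀ k m n : ℕ, Smooth k → Smooth m → Smooth n → c (T * m) = c (T * n) →
      c (T * (k * m)) = c (T * (k * n))) (K : ℕ) :
    ∃ x y z : ℕ, K < x ∧ K < y ∧ K < z ∧ x ^ 2 + y ^ 2 = z ^ 2 ∧ c x = c y ∧ c y = c z := by
  classical
  set A : Set κ := c '' {N : ℕ | ∃ n : ℕ, Smooth n ∧ N = T * n} with hA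
  have hfin : A.Finite := by
    rw [← Set.encard_lt_top_iff]
    exact lt_of_le_of_lt h3 (by decide)
  have hfin' : Finite A := hfin
  have hcard : Nat.card A ≤ 3 := by
    have h1 : A.encard = (A.ncard : ℕ∞) := (hfin.cast_ncard_eq).symm
    rw [h1] at h3
    have h2 : A.ncard ≤ 3 := by exact_mod_cast h3
    exact h2
  have hone : Smooth 1 := (smooth_iff 1).2 (Nat.mem_smoothNumbers_of_lt (by norm_num) (by norm_num))
  have hmem : ∀ n, Smooth n → c (T * n) ∈ A := fun n hn => ⟨T * n, ⟨n, hn, rfl⟩, rfl⟩
  let d : ℕ → A := fun n => if h : Smooth n then ⟨c (T * n), hmem n h⟩ else ⟨c (T * 1), hmem 1 hone⟩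
  have hd : ∀ m n, Smooth m → Smooth n → (d m = d n ↔ c (T * m) = c (T * n)) := by
    intro m n hm hn
    simp only [d, hm, hn, dif_pos, Subtype.mk.injEq]
  have smul : ∀ {m n : ℕ}, Smooth m → Smooth n → Smooth (m * n) := by
    intro m n hm hn
    rw [smooth_iff] at hm hn ⊢
    exact Pool.Agent.V11118.PythMul.sm_mul hm hn
  obtain ⟨x, hx, y, hy, z, hz, h, h1, h2⟩ := Pool.Agent.V11118.PythMul.main hcard d (by
    intro k hk m hm n hn h
    rw [← smooth_iff] at hk hm hn
    rw [hd _ _ hm hn] at h
    rw [hd _ _ (smul hk hm) (smul hk hn)]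
    exact hc k m n hk hm hn h)
  rw [← smooth_iff] at hx hy hz
  rw [hd _ _ hx hy] at h1
  rw [hd _ _ hy hz] at h2
  have hpow : ∀ j : ℕ, Smooth (2 ^ j) := by
    intro j
    induction j with
    | zero => simpa using hone
    | succ j ih =>
      rw [pow_succ]
      exact smul ih ((smooth_iff 2).2 (Nat.mem_smoothNumbers_of_lt (by norm_num) (by norm_num)))
  have hbig : ∀ w : ℕ, Smooth w → K < T * (2 ^ K * w) := by
    intro w hw
    have h5 : K < 2 ^ K := Nat.lt_two_pow_self
    calc K < 2 ^ K := h5
      _ = 1 * (2 ^ K * 1) := by ring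
      _ ≤ T * (2 ^ K * w) := Nat.mul_le_mul hT (Nat.mul_le_mul_left _ hw.1)
  refine ⟨T * (2 ^ K * x), T * (2 ^ K * y), T * (2 ^ K * z), hbig x hx, hbig y hy, hbig z hz, ?_,
    hc _ _ _ (hpow K) hx hy h1, hc _ _ _ (hpow K) hy hz h2⟩
  have e : ∀ w : ℕ, (T * (2 ^ K * w)) ^ 2 = (T * 2 ^ K) ^ 2 * w ^ 2 := by intro w; ring
  rw [e, e, e, ← mul_add, h]

end Pool.Agent.Results.MP_0f91f8_co.DilationStableThreeColours
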